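import Pool.Agent.Helper35.KL.AmalgPub

/-!
# Lusztig's conjectures P1-P15 for amalgams over parabolic subgroups

If the set of generators is the union of `J` and `K` and `m s t = ∞` for all `s ∈ J \ K`,
`t ∈ K \ J` (so the group is the amalgam of the parabolic subgroups of `J` and `K` over the one of
`J ∩ K`), then boundedness and P1-P15 hold for a positive weight function `L` if and only if they
hold for the two parabolic subgroups and the restrictions of `L`. The set of generators may be
infinite.
-/

set_option autoImplicit false

namespace Pool.Agent.Results.MP_e3f603_al.Amalgams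

open Pool.Agent.Helper63.LG.Pub

theorem result {B : Type} (M : CoxeterMatrix B) (L : M.Group → ℤ) (hL : IsWeight M L)
    (J K : Set B) (hJK : J ∪ K = Set.univ) (h : ∀ s ∈ J \ K, ∀ t ∈ K \ J, M s t = 0) :
    Good M L ↔ Good (sub M J) (subL L J) ∧ Good (sub M K) (subL L K) :=
  Pool.Agent.Helper35.AmalgPub.main M L hL J K hJK h

end Pool.Agent.Results.MP_e3f603_al.Amalgams
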