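import Pool.Agent.Helper63.LG.PubEq

/-!
# Lusztig's conjectures P1-P15 can be cut at large bonds

Let the set `S` of generators of the Coxeter group `W` be finite and `L` a positive weight function.
`Good M L` says that `(W, L)` is bounded and satisfies P1-P15, `Question M L` that P1-P15 hold if
`(W, L)` is bounded; `m s t = ∞` is written `M s t = 0`.

* If `S` is divided into blocks such that `m s t ≥ 5` or `m s t = ∞` for all `s`, `t` in different
  blocks, then `(W, L)` is good if and only if the parabolic subgroups of all blocks are good.
* Question Q1 for all Coxeter groups of finite rank follows from the question for the groups of rank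
  at least three in which all `m s t` are finite and whose set `S` is irreducible and tight: it is
  not the union of two nonempty disjoint sets such that `m s t = 2` (irreducible), or `m s t ≥ 5`
  (tight), for all `s` in the first and `t` in the second set.
* `(W, L)` is good for every `L`, if for all distinct `r`, `s`, `t` with `m r s`, `m s t`, `m r t`
  finite and `m r s` equal to `3` or `4`, the numbers `m r t` and `m s t` are both `2` or both at
  least `5`, and there are no `a`, `b`, `c`, `d` with `m a b = m b c = m c d = 2` and `m a c`,
  `m b d`, `m a d` finite and at least `5`.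
-/

set_option autoImplicit false

namespace Pool.Agent.Results.MP_e3f603_al.LargeBonds

open Pool.Agent.Helper63.LG.Pub

theorem result :
    -- blocks with large bonds between them
    (∀ (B : Type) [Finite B] (M : CoxeterMatrix B) (L : M.Group → ℤ), IsWeight M L →
      ∀ (ι : Type) (β : B → ι), (∀ s t, β s ≠ β t → M s t = 0 ∨ 5 ≤ M s t) →
        (Good M L ↔ ∀ i, Good (sub M {b | β b = i}) (subL L {b | β b = i}))) ∧
    -- reduction of the question to tight groups
    ((∀ (B : Type) [Finite B] (M : CoxeterMatrix B) (L : M.Group → ℤ), IsWeight M L →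
        3 ≤ Nat.card B → (∀ s t, M s t ≠ 0) → Irred M → Tight M → Question M L) →
      ∀ (B : Type) [Finite B] (M : CoxeterMatrix B) (L : M.Group → ℤ), IsWeight M L →
        Question M L) ∧
    -- bounded groups with P1-P15
    (∀ (B : Type) [Finite B] (M : CoxeterMatrix B),
      (∀ r s t, r ≠ s → s ≠ t → r ≠ t → M r s ≠ 0 → M s t ≠ 0 → M r t ≠ 0 →
        M r s = 3 ∨ M r s = 4 → (M r t = 2 ∧ M s t = 2) ∨ (5 ≤ M r t ∧ 5 ≤ M s t)) →
      (∀ a b c d, M a b = 2 → M b c = 2 → M c d = 2 → 5 ≤ M a c → 5 ≤ M b d → 5 ≤ M a d →
        False) →
      ∀ L : M.Group → ℤ, IsWeight M L → Good M L) :=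
  ⟨fun _ _ _ _ hL _ β hb => blocks hL β hb, fun hq => reduction hq,
    fun _ _ _ h1 h2 _ hL => labels h1 h2 hL⟩

end Pool.Agent.Results.MP_e3f603_al.LargeBonds
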